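import Pool.Agent.H365EH.Sum

set_option autoImplicit false

namespace H365EH

open Finset

section
variable {α : Type*} [DecidableEq α]

theorem sum_sq (Y : Finset α) :
    ∑ A ∈ Y.powerset, (2 * (A.card : ℝ) - Y.card) ^ 2 = (Y.card : ℝ) * 2 ^ Y.card := by
  induction Y using Finset.induction_on with
  | empty => simp
  | insert y Y hy ih =>
    rw [sum_powerset_insert hy]
    have h2 : ∑ A ∈ Y.powerset, (2 * ((insert y A).card : ℝ) - (insert y Y).card) ^ 2 =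
        ∑ A ∈ Y.powerset, (2 * (A.card : ℝ) + 1 - Y.card) ^ 2 := by
      refine sum_congr rfl (fun A hA => ?_)
      rw [card_insert_of_notMem hy, card_insert_of_notMem (fun h => hy (mem_powerset.1 hA h))]
      push_cast; ring
    rw [h2, ← sum_add_distrib]
    have h3 : ∀ A ∈ Y.powerset, (2 * (A.card : ℝ) - (insert y Y).card) ^ 2 + (2 * (A.card : ℝ) + 1 - Y.card) ^ 2 =
        2 * (2 * (A.card : ℝ) - Y.card) ^ 2 + 2 := by
      intro A _
      rw [card_insert_of_notMem hy]; push_cast; ring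
    rw [sum_congr rfl h3, sum_add_distrib, ← mul_sum, ih, sum_const, card_powerset, nsmul_eq_mul,
      card_insert_of_notMem hy]
    push_cast; ring

variable [Fintype α]

theorem T_le (Y : Finset α) (κ : ℝ) (hκ : 0 < κ) (hY : 0 < Y.card) (K : ℕ)
    (hK : (1 / 2 + κ) * Y.card < K + 1) : (T K Y : ℝ) ≤ 2 ^ Y.card / (4 * κ ^ 2 * Y.card) := by
  have hm : (0 : ℝ) < Y.card := by exact_mod_cast hY
  have h1 : (T K Y : ℝ) * (2 * κ * Y.card) ^ 2 ≤ (Y.card : ℝ) * 2 ^ Y.card := by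
    rw [← sum_sq Y]
    calc (T K Y : ℝ) * (2 * κ * Y.card) ^ 2 = ∑ A ∈ Y.powerset.filter (fun A => K < A.card), (2 * κ * Y.card) ^ 2 := by
          rw [sum_const, nsmul_eq_mul]; rfl
      _ ≤ ∑ A ∈ Y.powerset.filter (fun A => K < A.card), (2 * (A.card : ℝ) - Y.card) ^ 2 := by
          refine sum_le_sum (fun A hA => ?_)
          rw [mem_filter] at hA
          have h2 : (K : ℝ) + 1 ≤ A.card := by exact_mod_cast hA.2
          have h3 : 2 * κ * Y.card ≤ 2 * (A.card : ℝ) - Y.card := by nlinarith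
          exact pow_le_pow_left₀ (by positivity) h3 2
      _ ≤ ∑ A ∈ Y.powerset, (2 * (A.card : ℝ) - Y.card) ^ 2 :=
          sum_le_sum_of_subset_of_nonneg (filter_subset _ _) (fun _ _ _ => by positivity)
  rw [le_div_iff₀ (by positivity)]
  have h4 : ((T K Y : ℝ) * (4 * κ ^ 2 * Y.card)) * Y.card ≤ 2 ^ Y.card * Y.card := by nlinarith
  exact le_of_mul_le_mul_right h4 hm

end

theorem exists_theta (ε : ℝ) (hε : 0 < ε) (l : ℕ) :
    ∃ θ : ℝ, 0 < θ ∧ θ < 1 / 2 ∧ (1 + θ) ^ (l + 1) / (1 - θ) ≤ 1 + ε / 2 := by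
  have hc : ContinuousAt (fun θ : ℝ => (1 + θ) ^ (l + 1) / (1 - θ)) 0 := by
    apply ContinuousAt.div
    · fun_prop
    · fun_prop
    · norm_num
  have h1 : ∀ᶠ θ : ℝ in nhds 0, (1 + θ) ^ (l + 1) / (1 - θ) < 1 + ε / 2 := by
    apply hc.eventually_lt continuousAt_const
    simp; positivity
  have h2 : ∀ᶠ θ : ℝ in nhds 0, θ < 1 / 2 := gt_mem_nhds (by norm_num)
  obtain ⟨r, hr, hball⟩ := Metric.eventually_nhds_iff.1 (h1.and h2)
  refine ⟨r / 2, by positivity, ?_, ?_⟩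
  · exact (hball (by rw [Real.dist_eq, sub_zero, abs_of_pos (by positivity)]; linarith)).2
  · exact (hball (by rw [Real.dist_eq, sub_zero, abs_of_pos (by positivity)]; linarith)).1.le

theorem two_mul_le_pow (m : ℕ) (hm : 4 ≤ m) : 2 * m ≤ 2 ^ (m - 1) := by
  obtain ⟨k, rfl⟩ := Nat.exists_eq_add_of_le hm
  have : 4 + k - 1 = k + 3 := by omega
  rw [this]
  induction k with
  | zero => norm_num
  | succ k ih =>
    have := ih (by omega) (by omega)
    rw [pow_succ]; omega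

theorem asym (ε : ℝ) (hε : 0 < ε) :
    ∃ M : ℕ, ∀ m : ℕ, M ≤ m → ∀ n : ℕ, 2 ^ m ≤ 2 * n →
      (∃ f : Finset (Fin n) → Fin n, ∀ Y : Finset (Fin n), Y.card = m → ∀ x, ∃ A, A ⊆ Y ∧ f A = x) →
      (n : ℝ) ≤ (1 / 2 + ε) * 2 ^ m := by
  obtain ⟨l, hl⟩ := exists_pow_lt_of_lt_one (show (0 : ℝ) < ε / 4 by positivity) (show (1 / 2 : ℝ) < 1 by norm_num)
  obtain ⟨θ, hθ0, hθ1, hθ⟩ := exists_theta ε hε l
  set κ : ℝ := θ / 8 with hκdef
  have hκ : 0 < κ := by positivity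
  obtain ⟨M1, hM1⟩ := exists_nat_ge (8 * (l : ℝ) / θ)
  obtain ⟨M2, hM2⟩ := exists_nat_ge (1 / (κ ^ 2 * θ ^ (l + 1) * ε))
  obtain ⟨M3, hM3⟩ := exists_nat_ge (((l : ℝ) + 1) / θ)
  refine ⟨M1 + M2 + M3 + l + 4, ?_⟩
  rintro m hm n hn ⟨f, hf⟩
  obtain ⟨a, rfl⟩ : ∃ a, m = a + l + 1 := ⟨m - (l + 1), by omega⟩
  set m := a + l + 1 with hmdef
  have hmM1 : (M1 : ℝ) ≤ m := by exact_mod_cast (by omega : M1 ≤ m)
  have hmM2 : (M2 : ℝ) ≤ m := by exact_mod_cast (by omega : M2 ≤ m)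
  have hmM3 : (M3 : ℝ) ≤ m := by exact_mod_cast (by omega : M3 ≤ m)
  have hm0 : (0 : ℝ) < m := by exact_mod_cast (by omega : 0 < m)
  have hcard : Fintype.card (Fin n) = n := Fintype.card_fin n
  have h2m : 2 * m ≤ n := by
    have h1 := two_mul_le_pow m (by omega)
    have h2 : 2 ^ m = 2 * 2 ^ (m - 1) := by
      rw [← pow_succ']; congr 1
    omega
  have h2mR : 2 * (m : ℝ) ≤ n := by exact_mod_cast h2m
  set K : ℕ := ⌊(1 / 2 + κ) * (m : ℝ)⌋₊ with hKdef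
  have hK1 : (K : ℝ) ≤ (1 / 2 + κ) * m := Nat.floor_le (by positivity)
  have hK2 : (1 / 2 + κ) * (m : ℝ) < K + 1 := Nat.lt_floor_add_one _
  have hT : ∀ Y : Finset (Fin n), Y.card = a + l + 1 → (T K Y : ℝ) ≤ 2 ^ m / (4 * κ ^ 2 * m) := by
    intro Y hY
    have := T_le Y κ hκ (by omega) K (by rw [hY]; exact hK2)
    rwa [hY] at this
  have hmain := main_ineq f K a l (2 * (1 + θ)) θ (2 ^ m / (4 * κ ^ 2 * m)) hf hT (by linarith) hθ0 (by linarith)
    (by rw [hcard]; omega) ?_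
  · rw [hcard] at hmain
    have ham : (a : ℝ) + (l + 1) = m := by rw [hmdef]; push_cast; ring
    rw [ham] at hmain
    have hP : (0 : ℝ) < 2 ^ m := by positivity
    have e1 : (2 : ℝ) ^ a ≤ ε / 4 * 2 ^ m := by
      have h1 : (2 : ℝ) ^ a = (1 / 2) ^ (l + 1) * 2 ^ m := by
        have h0 : (2 : ℝ) ^ m = 2 ^ (l + 1) * 2 ^ a := by
          rw [← pow_add]; congr 1; omega
        rw [h0, one_div, inv_pow, ← mul_assoc, inv_mul_cancel₀ (by positivity), one_mul]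
      rw [h1]
      refine mul_le_mul_of_nonneg_right ?_ hP.le
      calc (1 / 2 : ℝ) ^ (l + 1) ≤ (1 / 2) ^ l := pow_le_pow_of_le_one (by norm_num) (by norm_num) (Nat.le_succ l)
        _ ≤ ε / 4 := hl.le
    have e2 : (2 : ℝ) ^ m / (4 * κ ^ 2 * m) / θ ^ (l + 1) ≤ ε / 4 * 2 ^ m := by
      have h1 : 1 / (κ ^ 2 * θ ^ (l + 1) * ε) ≤ m := hM2.trans hmM2
      rw [div_le_iff₀ (by positivity)] at h1
      rw [div_div, div_le_iff₀ (by positivity)]
      nlinarith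
    have e3 : (2 * (1 + θ)) ^ l * 2 ^ a * (((n : ℝ) - a) / ((n : ℝ) - m)) / (1 - θ) ≤ (1 / 2 + ε / 4) * 2 ^ m := by
      have hnm : 0 < (n : ℝ) - m := by linarith
      have hr : ((n : ℝ) - a) / ((n : ℝ) - m) ≤ 1 + θ := by
        rw [div_le_iff₀ hnm]
        have h1 : ((l : ℝ) + 1) / θ ≤ m := hM3.trans hmM3
        rw [div_le_iff₀ hθ0] at h1
        have h2 : (n : ℝ) - a = (n - m) + (l + 1) := by rw [← ham]; ring
        rw [h2]
        nlinarith
      have h3 : (2 * (1 + θ)) ^ l * 2 ^ a = (1 + θ) ^ l * (1 / 2 * 2 ^ m) := by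
        rw [mul_pow, hmdef, pow_add, pow_add]; ring
      rw [h3]
      have hθ' : 0 < 1 - θ := by linarith
      calc (1 + θ) ^ l * (1 / 2 * 2 ^ m) * (((n : ℝ) - a) / ((n : ℝ) - m)) / (1 - θ)
          ≤ (1 + θ) ^ l * (1 / 2 * 2 ^ m) * (1 + θ) / (1 - θ) := by
            refine div_le_div_of_nonneg_right ?_ hθ'.le
            exact mul_le_mul_of_nonneg_left hr (by positivity)
        _ = ((1 + θ) ^ (l + 1) / (1 - θ)) * (1 / 2 * 2 ^ m) := by rw [pow_succ]; ring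
        _ ≤ (1 + ε / 2) * (1 / 2 * 2 ^ m) := mul_le_mul_of_nonneg_right hθ (by positivity)
        _ = _ := by ring
    have : ε / 4 * 2 ^ m + ε / 4 * 2 ^ m + (1 / 2 + ε / 4) * 2 ^ m ≤ (1 / 2 + ε) * (2:ℝ) ^ m := by nlinarith
    linarith
  · intro j hj1 hj2
    have hjm : (j : ℝ) + 1 ≤ m := by
      have : j + 1 ≤ m := by omega
      exact_mod_cast this
    have hja : (m : ℝ) ≤ j + l + 1 := by
      have : m ≤ j + l + 1 := by omega
      exact_mod_cast this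
    have hsub : (j : ℝ) + 2 - K ≤ ((j + 2 - K : ℕ) : ℝ) := by
      rcases le_total K (j + 2) with h | h
      · rw [Nat.cast_sub h]; push_cast; linarith
      · have : (j : ℝ) + 2 ≤ K := by exact_mod_cast h
        have h0 : (0 : ℝ) ≤ ((j + 2 - K : ℕ) : ℝ) := by positivity
        linarith
    have h1 : 8 * (l : ℝ) / θ ≤ m := hM1.trans hmM1
    rw [div_le_iff₀ hθ0] at h1
    have h2 : (1 / 2 - κ) * m - l + 1 ≤ ((j + 2 - K : ℕ) : ℝ) := by nlinarith
    have h3 : (m : ℝ) ≤ 2 * (1 + θ) * ((1 / 2 - κ) * m - l + 1) := by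
      have hl0 : (0 : ℝ) ≤ l := by positivity
      have h4 : 2 * (1 + θ) * ((1 / 2 - κ) * m - l + 1) = (1 + θ) * (1 - 2 * κ) * m - 2 * (1 + θ) * l + 2 * (1 + θ) := by ring
      have h5 : (1 + θ / 2) ≤ (1 + θ) * (1 - 2 * κ) := by rw [hκdef]; nlinarith
      have h6 : (1 + θ / 2) * m ≤ (1 + θ) * (1 - 2 * κ) * m := mul_le_mul_of_nonneg_right h5 hm0.le
      rw [h4]
      nlinarith
    calc (j : ℝ) + 1 ≤ m := hjm
      _ ≤ 2 * (1 + θ) * ((1 / 2 - κ) * m - l + 1) := h3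
      _ ≤ 2 * (1 + θ) * ((j + 2 - K : ℕ) : ℝ) := mul_le_mul_of_nonneg_left h2 (by positivity)

end H365EH
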