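import Mathlib

set_option autoImplicit false

namespace H365EH

open Finset

variable {α : Type*} [Fintype α] [DecidableEq α]

/-- `Z` contains no member of `F`. -/
def Free (F : Finset (Finset α)) (Z : Finset α) : Prop := ∀ A ∈ F, ¬ A ⊆ Z

instance (F : Finset (Finset α)) : DecidablePred (Free F) := fun Z => by
  unfold Free; infer_instance

/-- The free sets of size `j`. -/
def I (F : Finset (Finset α)) (j : ℕ) : Finset (Finset α) := (powersetCard j univ).filter (Free F)

def good (F : Finset (Finset α)) (Z : Finset α) : Finset α := Zᶜ.filter (fun x => Free F (insert x Z))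
def bad (F : Finset (Finset α)) (Z : Finset α) : Finset α := Zᶜ.filter (fun x => ¬ Free F (insert x Z))

theorem mem_I {F : Finset (Finset α)} {j : ℕ} {Z : Finset α} : Z ∈ I F j ↔ Z.card = j ∧ Free F Z := by
  simp [I, mem_powersetCard]

theorem mem_good {F : Finset (Finset α)} {Z : Finset α} {x : α} :
    x ∈ good F Z ↔ x ∉ Z ∧ Free F (insert x Z) := by simp [good]

theorem mem_bad {F : Finset (Finset α)} {Z : Finset α} {x : α} :
    x ∈ bad F Z ↔ x ∉ Z ∧ ¬ Free F (insert x Z) := by simp [bad]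

omit [Fintype α] [DecidableEq α] in
theorem Free.mono {F : Finset (Finset α)} {Z W : Finset α} (h : Free F Z) (hW : W ⊆ Z) : Free F W :=
  fun A hA hAW => h A hA (hAW.trans hW)

theorem card_good_add_bad (F : Finset (Finset α)) (Z : Finset α) :
    (good F Z).card + (bad F Z).card + Z.card = Fintype.card α := by
  have h1 : (good F Z).card + (bad F Z).card = Zᶜ.card := by
    unfold good bad
    exact Finset.card_filter_add_card_filter_not _
  rw [h1, add_comm, card_add_card_compl]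

theorem sum_good (F : Finset (Finset α)) (j : ℕ) :
    ∑ W ∈ I F j, (good F W).card = (j + 1) * (I F (j + 1)).card := by
  have h1 : (j + 1) * (I F (j + 1)).card = ∑ Z ∈ I F (j + 1), Z.card := by
    rw [Finset.sum_congr rfl (fun Z hZ => (mem_I.1 hZ).1)]
    simp [mul_comm]
  rw [h1, ← card_sigma, ← card_sigma]
  refine Finset.card_bij' (fun p _ => ⟨insert p.2 p.1, p.2⟩) (fun p _ => ⟨p.1.erase p.2, p.2⟩) ?_ ?_ ?_ ?_
  · rintro ⟨W, x⟩ h
    simp only [mem_sigma, mem_I, mem_good] at h ⊢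
    exact ⟨⟨by rw [card_insert_of_notMem h.2.1, h.1.1], h.2.2⟩, mem_insert_self _ _⟩
  · rintro ⟨Z, x⟩ h
    simp only [mem_sigma, mem_I, mem_good] at h ⊢
    refine ⟨⟨by rw [card_erase_of_mem h.2, h.1.1]; rfl, h.1.2.mono (erase_subset _ _)⟩, notMem_erase _ _, ?_⟩
    rw [insert_erase h.2]; exact h.1.2
  · rintro ⟨W, x⟩ h
    simp only [mem_sigma, mem_I, mem_good] at h
    simp [erase_insert h.2.1]
  · rintro ⟨Z, x⟩ h
    simp only [mem_sigma, mem_I] at h
    simp [insert_erase h.2]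

/-- total number of bad extensions of free `j`-sets. -/
def B (F : Finset (Finset α)) (j : ℕ) : ℕ := ∑ Z ∈ I F j, (bad F Z).card

theorem step3 (F : Finset (Finset α)) (K : ℕ) (hK : ∀ A ∈ F, A.card ≤ K) (j : ℕ) :
    (j + 2 - K) * B F (j + 1) ≤ ∑ W ∈ I F j, (good F W).card * (bad F W).card := by
  have hS : ∑ W ∈ I F j, (good F W).card * (bad F W).card =
      ((I F j).sigma (fun W => good F W ×ˢ bad F W)).card := by
    rw [card_sigma]; simp [card_product]
  have hT : (j + 2 - K) * B F (j + 1) ≤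
      ((I F (j + 1)).sigma (fun Z => (bad F Z ×ˢ Z).filter
        (fun p => ¬ Free F (insert p.1 (Z.erase p.2))))).card := by
    rw [card_sigma, B, mul_sum]
    refine sum_le_sum (fun Z hZ => ?_)
    rw [mem_I] at hZ
    have hfib : ((bad F Z ×ˢ Z).filter (fun p => ¬ Free F (insert p.1 (Z.erase p.2)))).card =
        ∑ x ∈ bad F Z, (Z.filter (fun z => ¬ Free F (insert x (Z.erase z)))).card := by
      rw [card_filter, sum_product]
      refine sum_congr rfl (fun x _ => ?_)
      rw [card_filter]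
    rw [hfib, mul_comm, ← smul_eq_mul, ← sum_const]
    refine sum_le_sum (fun x hx => ?_)
    rw [mem_bad] at hx
    obtain ⟨hxZ, hnf⟩ := hx
    unfold Free at hnf
    push Not at hnf
    obtain ⟨A, hA, hAs⟩ := hnf
    have hxA : x ∈ A := by
      by_contra hcon
      exact hZ.2 A hA (fun y hy => by
        rcases mem_insert.1 (hAs hy) with h | h
        · exact absurd (h ▸ hy) hcon
        · exact h)
    have hsub : Z \ A ⊆ Z.filter (fun z => ¬ Free F (insert x (Z.erase z))) := by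
      intro z hz
      rw [mem_sdiff] at hz
      rw [mem_filter]
      refine ⟨hz.1, fun hfree => hfree A hA (fun y hy => ?_)⟩
      rcases mem_insert.1 (hAs hy) with h | h
      · rw [h]; exact mem_insert_self _ _
      · refine mem_insert_of_mem (mem_erase.2 ⟨?_, h⟩)
        rintro rfl; exact hz.2 hy
    have hcard : j + 2 - K ≤ (Z \ A).card := by
      have h1 : (Z \ A).card + (A ∩ Z).card = Z.card := by
        rw [inter_comm]; exact card_sdiff_add_card_inter Z A
      have h2 : (A ∩ Z).card + 1 ≤ A.card := by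
        have : A ∩ Z ⊂ A := by
          refine ⟨inter_subset_left, fun h => hxZ (mem_inter.1 (h hxA)).2⟩
        exact card_lt_card this
      have h3 := hK A hA
      omega
    exact hcard.trans (card_le_card hsub)
  refine hT.trans ?_
  rw [hS]
  refine Finset.card_le_card_of_injOn (fun p => ⟨p.1.erase p.2.2, (p.2.2, p.2.1)⟩) ?_ ?_
  · rintro ⟨Z, x, z⟩ h
    simp only [coe_sigma, Set.mem_sigma_iff, mem_coe, mem_I, mem_filter, mem_product, mem_bad, mem_good,
      mem_sigma] at h ⊢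
    obtain ⟨⟨hc, hf⟩, ⟨⟨hxZ, hnf⟩, hz⟩, hnf2⟩ := h
    refine ⟨⟨by rw [card_erase_of_mem hz, hc]; rfl, hf.mono (erase_subset _ _)⟩, ⟨notMem_erase _ _, ?_⟩, ?_, hnf2⟩
    · rw [insert_erase hz]; exact hf
    · exact fun h => hxZ (mem_of_mem_erase h)
  · rintro ⟨Z, x, z⟩ h ⟨Z', x', z'⟩ h' heq
    simp only [coe_sigma, Set.mem_sigma_iff, mem_coe, mem_filter, mem_product] at h h'
    simp only [Sigma.mk.injEq, heq_eq_eq, Prod.mk.injEq] at heq
    obtain ⟨h1, h2, h3⟩ := heq
    subst h2; subst h3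
    have : Z = Z' := by rw [← insert_erase h.2.1.2, ← insert_erase h'.2.1.2, h1]
    subst this; rfl

theorem step4 (F : Finset (Finset α)) (K : ℕ) (hK : ∀ A ∈ F, A.card ≤ K) (j : ℕ) :
    ((I F j).card : ℝ) * (((j + 2 - K : ℕ) : ℝ) * (B F (j + 1) : ℝ)) ≤
      ((j : ℝ) + 1) * ((I F (j + 1)).card : ℝ) * (B F j : ℝ) := by
  have h3 : (((j + 2 - K : ℕ) : ℝ) * (B F (j + 1) : ℝ)) ≤
      ∑ W ∈ I F j, ((good F W).card : ℝ) * ((bad F W).card : ℝ) := by
    exact_mod_cast step3 F K hK j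
  have h2 : ∑ W ∈ I F j, ((good F W).card : ℝ) = ((j : ℝ) + 1) * ((I F (j + 1)).card : ℝ) := by
    exact_mod_cast sum_good F j
  set n : ℝ := (Fintype.card α : ℝ) with hn
  have hgb : ∀ W ∈ I F j, ((bad F W).card : ℝ) = n - j - ((good F W).card : ℝ) := by
    intro W hW
    have h := card_good_add_bad F W
    rw [(mem_I.1 hW).1] at h
    have : ((good F W).card : ℝ) + ((bad F W).card : ℝ) + j = n := by rw [hn]; exact_mod_cast h
    linarith
  have hB : (B F j : ℝ) = (n - j) * ((I F j).card : ℝ) - ∑ W ∈ I F j, ((good F W).card : ℝ) := by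
    unfold B
    push_cast
    rw [sum_congr rfl hgb, sum_sub_distrib, sum_const, nsmul_eq_mul]
    ring
  have hprod : ∑ W ∈ I F j, ((good F W).card : ℝ) * ((bad F W).card : ℝ) =
      (n - j) * ∑ W ∈ I F j, ((good F W).card : ℝ) - ∑ W ∈ I F j, ((good F W).card : ℝ) ^ 2 := by
    rw [mul_sum, ← sum_sub_distrib]
    refine sum_congr rfl (fun W hW => ?_)
    rw [hgb W hW]; ring
  have hcs : (∑ W ∈ I F j, ((good F W).card : ℝ)) ^ 2 ≤
      ((I F j).card : ℝ) * ∑ W ∈ I F j, ((good F W).card : ℝ) ^ 2 :=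
    sq_sum_le_card_mul_sum_sq
  set S := ∑ W ∈ I F j, ((good F W).card : ℝ) with hSdef
  rw [← h2, hB]
  have hI : (0 : ℝ) ≤ ((I F j).card : ℝ) := by positivity
  calc ((I F j).card : ℝ) * (((j + 2 - K : ℕ) : ℝ) * (B F (j + 1) : ℝ))
      ≤ ((I F j).card : ℝ) * ((n - j) * S - ∑ W ∈ I F j, ((good F W).card : ℝ) ^ 2) := by
        rw [← hprod]; exact mul_le_mul_of_nonneg_left h3 hI
    _ = (n - j) * S * ((I F j).card : ℝ) - ((I F j).card : ℝ) * ∑ W ∈ I F j, ((good F W).card : ℝ) ^ 2 := by ring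
    _ ≤ (n - j) * S * ((I F j).card : ℝ) - S ^ 2 := by linarith
    _ = S * ((n - j) * ((I F j).card : ℝ) - S) := by ring

/-- `(j+1) |I (j+1)| = (n-j)|I j| - B j`. -/
theorem I_succ (F : Finset (Finset α)) (j : ℕ) :
    ((j : ℝ) + 1) * ((I F (j + 1)).card : ℝ) =
      ((Fintype.card α : ℝ) - j) * ((I F j).card : ℝ) - (B F j : ℝ) := by
  have h2 : ∑ W ∈ I F j, ((good F W).card : ℝ) = ((j : ℝ) + 1) * ((I F (j + 1)).card : ℝ) := by
    exact_mod_cast sum_good F j
  have hgb : ∀ W ∈ I F j, ((bad F W).card : ℝ) = (Fintype.card α : ℝ) - j - ((good F W).card : ℝ) := by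
    intro W hW
    have h := card_good_add_bad F W
    rw [(mem_I.1 hW).1] at h
    have : ((good F W).card : ℝ) + ((bad F W).card : ℝ) + j = (Fintype.card α : ℝ) := by exact_mod_cast h
    linarith
  have hB : (B F j : ℝ) = ((Fintype.card α : ℝ) - j) * ((I F j).card : ℝ) - ∑ W ∈ I F j, ((good F W).card : ℝ) := by
    unfold B
    push_cast
    rw [sum_congr rfl hgb, sum_sub_distrib, sum_const, nsmul_eq_mul]
    ring
  rw [hB, h2]; ring

theorem chain_aux (F : Finset (Finset α)) (K a l : ℕ) (hK : ∀ A ∈ F, A.card ≤ K) (g δ : ℝ)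
    (hg : 1 ≤ g) (hδ : 0 < δ) (hn : a + (l + 1) < Fintype.card α)
    (hgK : ∀ j, a ≤ j → j + 1 < a + (l + 1) → (j : ℝ) + 1 ≤ g * ((j + 2 - K : ℕ) : ℝ))
    (hI : 0 < (I F a).card)
    (hmain : g ^ l * (B F a : ℝ) ≤ (1 - δ) * ((Fintype.card α : ℝ) - (a + (l + 1))) * ((I F a).card : ℝ)) :
    ∀ i, i ≤ l →
      (B F (a + i) : ℝ) * ((I F a).card : ℝ) ≤ g ^ i * (B F a : ℝ) * ((I F (a + i)).card : ℝ) ∧
      0 < (I F (a + i)).card ∧
      δ ^ i * ((I F a).card : ℝ) * ((Fintype.card α).choose (a + i) : ℝ) ≤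
        ((I F (a + i)).card : ℝ) * ((Fintype.card α).choose a : ℝ) ∧
      δ ^ (i + 1) * ((I F a).card : ℝ) * ((Fintype.card α).choose (a + i + 1) : ℝ) ≤
        ((I F (a + i + 1)).card : ℝ) * ((Fintype.card α).choose a : ℝ) ∧ 0 < (I F (a + i + 1)).card := by
  set n : ℝ := (Fintype.card α : ℝ) with hndef
  have hnR : (a : ℝ) + (l + 1) < n := by rw [hndef]; exact_mod_cast hn
  have hI0 : (0 : ℝ) < ((I F a).card : ℝ) := by exact_mod_cast hI
  -- the second half follows from the first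
  have key : ∀ i, i ≤ l →
      (B F (a + i) : ℝ) * ((I F a).card : ℝ) ≤ g ^ i * (B F a : ℝ) * ((I F (a + i)).card : ℝ) →
      0 < (I F (a + i)).card →
      δ ^ i * ((I F a).card : ℝ) * ((Fintype.card α).choose (a + i) : ℝ) ≤
        ((I F (a + i)).card : ℝ) * ((Fintype.card α).choose a : ℝ) →
      δ ^ (i + 1) * ((I F a).card : ℝ) * ((Fintype.card α).choose (a + i + 1) : ℝ) ≤
        ((I F (a + i + 1)).card : ℝ) * ((Fintype.card α).choose a : ℝ) ∧ 0 < (I F (a + i + 1)).card := by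
    intro i hi h1 h2 h3
    have h2' : (0 : ℝ) < ((I F (a + i)).card : ℝ) := by exact_mod_cast h2
    have hiR : (i : ℝ) ≤ l := by exact_mod_cast hi
    have hgl : g ^ i * (B F a : ℝ) ≤ g ^ l * (B F a : ℝ) :=
      mul_le_mul_of_nonneg_right (pow_le_pow_right₀ hg hi) (by positivity)
    -- B (a+i) ≤ (1-δ)(n-a-i) I(a+i)
    have hδ1 : 0 ≤ (1 - δ) := by
      by_contra hcon
      push Not at hcon
      have : 0 ≤ g ^ l * (B F a : ℝ) := by positivity
      have h5 : (1 - δ) * (n - (a + (l + 1))) * ((I F a).card : ℝ) < 0 := by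
        have : 0 < n - (a + (l + 1)) := by linarith
        have := mul_pos this hI0
        nlinarith
      linarith
    have hB1 : (B F (a + i) : ℝ) ≤ (1 - δ) * (n - (a + i)) * ((I F (a + i)).card : ℝ) := by
      have h5 : (B F (a + i) : ℝ) * ((I F a).card : ℝ) ≤
          ((1 - δ) * (n - (a + i)) * ((I F (a + i)).card : ℝ)) * ((I F a).card : ℝ) := by
        calc (B F (a + i) : ℝ) * ((I F a).card : ℝ) ≤ g ^ i * (B F a : ℝ) * ((I F (a + i)).card : ℝ) := h1
          _ ≤ g ^ l * (B F a : ℝ) * ((I F (a + i)).card : ℝ) := mul_le_mul_of_nonneg_right hgl h2'.le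
          _ ≤ ((1 - δ) * (n - (a + (l + 1))) * ((I F a).card : ℝ)) * ((I F (a + i)).card : ℝ) :=
              mul_le_mul_of_nonneg_right hmain h2'.le
          _ ≤ ((1 - δ) * (n - (a + i)) * ((I F a).card : ℝ)) * ((I F (a + i)).card : ℝ) := by
              refine mul_le_mul_of_nonneg_right ?_ h2'.le
              refine mul_le_mul_of_nonneg_right ?_ hI0.le
              refine mul_le_mul_of_nonneg_left ?_ hδ1
              linarith
          _ = _ := by ring
      exact le_of_mul_le_mul_right h5 hI0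
    have hs := I_succ F (a + i)
    push_cast at hs
    rw [← hndef] at hs
    have hnai : 0 < n - (a + i) := by linarith
    have hlow : δ * (n - (a + i)) * ((I F (a + i)).card : ℝ) ≤
        ((a : ℝ) + i + 1) * ((I F (a + i + 1)).card : ℝ) := by
      rw [hs]; nlinarith
    have hch : ((Fintype.card α).choose (a + i + 1) : ℝ) * ((a : ℝ) + i + 1) =
        ((Fintype.card α).choose (a + i) : ℝ) * (n - (a + i)) := by
      have h6 := Nat.choose_succ_right_eq (Fintype.card α) (a + i)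
      have h7 : a + i ≤ Fintype.card α := by omega
      have h8 : (((Fintype.card α) - (a + i) : ℕ) : ℝ) = n - (a + i) := by
        rw [Nat.cast_sub h7]; push_cast; ring
      rw [← h8]
      have h9 : (((Fintype.card α).choose (a + i + 1) * (a + i + 1) : ℕ) : ℝ) =
        (((Fintype.card α).choose (a + i) * (Fintype.card α - (a + i)) : ℕ) : ℝ) := by rw [h6]
      push_cast at h9
      push_cast
      linarith
    have hapos : (0 : ℝ) < (a : ℝ) + i + 1 := by positivity
    refine ⟨?_, ?_⟩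
    · have h10 : (δ ^ (i + 1) * ((I F a).card : ℝ) * ((Fintype.card α).choose (a + i + 1) : ℝ)) * ((a : ℝ) + i + 1) ≤
          (((I F (a + i + 1)).card : ℝ) * ((Fintype.card α).choose a : ℝ)) * ((a : ℝ) + i + 1) := by
        calc (δ ^ (i + 1) * ((I F a).card : ℝ) * ((Fintype.card α).choose (a + i + 1) : ℝ)) * ((a : ℝ) + i + 1)
            = δ * (n - (a + i)) * (δ ^ i * ((I F a).card : ℝ) * ((Fintype.card α).choose (a + i) : ℝ)) := by
              rw [mul_assoc, hch]; ring
          _ ≤ δ * (n - (a + i)) * (((I F (a + i)).card : ℝ) * ((Fintype.card α).choose a : ℝ)) :=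
              mul_le_mul_of_nonneg_left h3 (by positivity)
          _ = (δ * (n - (a + i)) * ((I F (a + i)).card : ℝ)) * ((Fintype.card α).choose a : ℝ) := by ring
          _ ≤ (((a : ℝ) + i + 1) * ((I F (a + i + 1)).card : ℝ)) * ((Fintype.card α).choose a : ℝ) :=
              mul_le_mul_of_nonneg_right hlow (by positivity)
          _ = _ := by ring
      exact le_of_mul_le_mul_right h10 hapos
    · have h11 : 0 < ((a : ℝ) + i + 1) * ((I F (a + i + 1)).card : ℝ) :=
        lt_of_lt_of_le (by positivity) hlow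
      have h12 : (0 : ℝ) < ((I F (a + i + 1)).card : ℝ) := (pos_iff_pos_of_mul_pos h11).1 hapos
      exact_mod_cast h12
  intro i
  induction i with
  | zero =>
    intro _
    have h1 : (B F (a + 0) : ℝ) * ((I F a).card : ℝ) ≤ g ^ 0 * (B F a : ℝ) * ((I F (a + 0)).card : ℝ) := by simp
    have h3 : δ ^ 0 * ((I F a).card : ℝ) * ((Fintype.card α).choose (a + 0) : ℝ) ≤
        ((I F (a + 0)).card : ℝ) * ((Fintype.card α).choose a : ℝ) := by simp
    exact ⟨h1, hI, h3, key 0 (Nat.zero_le _) h1 hI h3⟩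
  | succ i ih =>
    intro hi
    obtain ⟨h1, h2, h3, h4, h5⟩ := ih (by omega)
    have h2' : (0 : ℝ) < ((I F (a + i)).card : ℝ) := by exact_mod_cast h2
    have h5' : (0 : ℝ) < ((I F (a + i + 1)).card : ℝ) := by exact_mod_cast h5
    have hst := step4 F K hK (a + i)
    have hgk := hgK (a + i) (by omega) (by omega)
    push_cast at hst hgk
    have hpos : (0 : ℝ) < ((a + i + 2 - K : ℕ) : ℝ) := by
      have : 0 < g * ((a + i + 2 - K : ℕ) : ℝ) := lt_of_lt_of_le (by positivity) hgk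
      exact (pos_iff_pos_of_mul_pos this).1 (by linarith)
    -- |I j| B(j+1) ≤ g |I(j+1)| B j
    have hA : ((I F (a + i)).card : ℝ) * (B F (a + i + 1) : ℝ) ≤
        g * ((I F (a + i + 1)).card : ℝ) * (B F (a + i) : ℝ) := by
      have hB0 : (0 : ℝ) ≤ (B F (a + i) : ℝ) := by positivity
      have h6 : (((I F (a + i)).card : ℝ) * (B F (a + i + 1) : ℝ)) * ((a + i + 2 - K : ℕ) : ℝ) ≤
          (g * ((I F (a + i + 1)).card : ℝ) * (B F (a + i) : ℝ)) * ((a + i + 2 - K : ℕ) : ℝ) := by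
        calc (((I F (a + i)).card : ℝ) * (B F (a + i + 1) : ℝ)) * ((a + i + 2 - K : ℕ) : ℝ)
            = ((I F (a + i)).card : ℝ) * (((a + i + 2 - K : ℕ) : ℝ) * (B F (a + i + 1) : ℝ)) := by ring
          _ ≤ ((a : ℝ) + i + 1) * ((I F (a + i + 1)).card : ℝ) * (B F (a + i) : ℝ) := hst
          _ = ((a : ℝ) + i + 1) * (((I F (a + i + 1)).card : ℝ) * (B F (a + i) : ℝ)) := by ring
          _ ≤ (g * ((a + i + 2 - K : ℕ) : ℝ)) * (((I F (a + i + 1)).card : ℝ) * (B F (a + i) : ℝ)) :=
              mul_le_mul_of_nonneg_right hgk (by positivity)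
          _ = _ := by ring
      exact le_of_mul_le_mul_right h6 hpos
    have hP : (B F (a + i + 1) : ℝ) * ((I F a).card : ℝ) ≤
        g ^ (i + 1) * (B F a : ℝ) * ((I F (a + i + 1)).card : ℝ) := by
      have h7 : ((B F (a + i + 1) : ℝ) * ((I F a).card : ℝ)) * ((I F (a + i)).card : ℝ) ≤
          (g ^ (i + 1) * (B F a : ℝ) * ((I F (a + i + 1)).card : ℝ)) * ((I F (a + i)).card : ℝ) := by
        calc ((B F (a + i + 1) : ℝ) * ((I F a).card : ℝ)) * ((I F (a + i)).card : ℝ)
            = (((I F (a + i)).card : ℝ) * (B F (a + i + 1) : ℝ)) * ((I F a).card : ℝ) := by ring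
          _ ≤ (g * ((I F (a + i + 1)).card : ℝ) * (B F (a + i) : ℝ)) * ((I F a).card : ℝ) :=
              mul_le_mul_of_nonneg_right hA hI0.le
          _ = g * ((I F (a + i + 1)).card : ℝ) * ((B F (a + i) : ℝ) * ((I F a).card : ℝ)) := by ring
          _ ≤ g * ((I F (a + i + 1)).card : ℝ) * (g ^ i * (B F a : ℝ) * ((I F (a + i)).card : ℝ)) :=
              mul_le_mul_of_nonneg_left h1 (by positivity)
          _ = _ := by ring
      exact le_of_mul_le_mul_right h7 h2'
    exact ⟨hP, h5, h4, key (i + 1) hi hP h5 h4⟩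

/-- The dichotomy in additive form. -/
theorem chain (F : Finset (Finset α)) (K a l : ℕ) (hK : ∀ A ∈ F, A.card ≤ K) (g δ : ℝ)
    (hg : 1 ≤ g) (hδ : 0 < δ) (hδ1 : δ < 1) (hn : a + (l + 1) < Fintype.card α)
    (hgK : ∀ j, a ≤ j → j + 1 < a + (l + 1) → (j : ℝ) + 1 ≤ g * ((j + 2 - K : ℕ) : ℝ)) :
    ((I F a).card : ℝ) ≤
      ((Fintype.card α).choose a : ℝ) / (δ ^ (l + 1) * ((Fintype.card α).choose (a + l + 1) : ℝ)) *
        ((I F (a + l + 1)).card : ℝ) +
      g ^ l / ((1 - δ) * ((Fintype.card α : ℝ) - (a + (l + 1)))) * (B F a : ℝ) := by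
  have hnR : (a : ℝ) + (l + 1) < (Fintype.card α : ℝ) := by exact_mod_cast hn
  have hpos1 : 0 < (1 - δ) * ((Fintype.card α : ℝ) - (a + (l + 1))) := by
    apply mul_pos <;> linarith
  have hch : (0 : ℝ) < ((Fintype.card α).choose (a + l + 1) : ℝ) := by
    exact_mod_cast Nat.choose_pos (by omega)
  have hg0 : 0 < g := by linarith
  have t1 : 0 ≤ ((Fintype.card α).choose a : ℝ) / (δ ^ (l + 1) * ((Fintype.card α).choose (a + l + 1) : ℝ)) *
        ((I F (a + l + 1)).card : ℝ) := by positivity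
  have t2 : 0 ≤ g ^ l / ((1 - δ) * ((Fintype.card α : ℝ) - (a + (l + 1)))) * (B F a : ℝ) := by positivity
  rcases Nat.eq_zero_or_pos (I F a).card with h0 | hI
  · rw [h0]; push_cast; linarith
  by_cases hmain : g ^ l * (B F a : ℝ) ≤ (1 - δ) * ((Fintype.card α : ℝ) - (a + (l + 1))) * ((I F a).card : ℝ)
  · obtain ⟨_, _, _, h4, _⟩ := chain_aux F K a l hK g δ hg hδ hn hgK hI hmain l le_rfl
    have : ((I F a).card : ℝ) ≤ ((Fintype.card α).choose a : ℝ) /
        (δ ^ (l + 1) * ((Fintype.card α).choose (a + l + 1) : ℝ)) * ((I F (a + l + 1)).card : ℝ) := by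
      rw [div_mul_eq_mul_div, le_div_iff₀ (by positivity)]
      linarith
    linarith
  · push Not at hmain
    have : ((I F a).card : ℝ) ≤ g ^ l / ((1 - δ) * ((Fintype.card α : ℝ) - (a + (l + 1)))) * (B F a : ℝ) := by
      rw [div_mul_eq_mul_div, le_div_iff₀ hpos1]
      linarith
    linarith

end H365EH
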