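import Pool.Agent.H365EH.Chain

set_option autoImplicit false

namespace H365EH

open Finset

variable {α β : Type*} [Fintype α] [DecidableEq α] [Fintype β] [DecidableEq β]

/-- Small members of colour `x`. -/
def Fam (f : Finset α → β) (K : ℕ) (x : β) : Finset (Finset α) :=
  univ.filter (fun A => f A = x ∧ A.card ≤ K)

theorem mem_Fam {f : Finset α → β} {K : ℕ} {x : β} {A : Finset α} :
    A ∈ Fam f K x ↔ f A = x ∧ A.card ≤ K := by simp [Fam]

/-- number of subsets of `Y` with more than `K` elements. -/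
def T (K : ℕ) (Y : Finset α) : ℕ := (Y.powerset.filter (fun A => K < A.card)).card

theorem sum_I_top (f : Finset α → β) (K m : ℕ) (hf : ∀ Y : Finset α, Y.card = m → ∀ x, ∃ A, A ⊆ Y ∧ f A = x)
    (T0 : ℝ) (hT : ∀ Y : Finset α, Y.card = m → (T K Y : ℝ) ≤ T0) :
    ∑ x, ((I (Fam f K x) m).card : ℝ) ≤ ((Fintype.card α).choose m : ℝ) * T0 := by
  have h1 : ∑ x, ((I (Fam f K x) m).card : ℝ) =
      ∑ Y ∈ powersetCard m (univ : Finset α), ((univ.filter (fun x => Free (Fam f K x) Y)).card : ℝ) := by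
    have : ∀ x, ((I (Fam f K x) m).card : ℝ) = ∑ Y ∈ powersetCard m (univ : Finset α), if Free (Fam f K x) Y then (1:ℝ) else 0 := by
      intro x; unfold I; rw [card_filter]; push_cast; rfl
    simp_rw [this]
    rw [sum_comm]
    refine sum_congr rfl (fun Y _ => ?_)
    rw [card_filter]; push_cast; rfl
  rw [h1]
  have h2 : ∀ Y ∈ powersetCard m (univ : Finset α), ((univ.filter (fun x => Free (Fam f K x) Y)).card : ℝ) ≤ T0 := by
    intro Y hY
    rw [mem_powersetCard] at hY
    refine le_trans ?_ (hT Y hY.2)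
    norm_cast
    choose A hA1 hA2 using hf Y hY.2
    refine Finset.card_le_card_of_injOn A ?_ ?_
    · intro x hx
      simp only [coe_filter, Set.mem_setOf_eq, mem_univ, true_and] at hx
      simp only [coe_filter, Set.mem_setOf_eq, mem_powerset]
      refine ⟨hA1 x, ?_⟩
      by_contra hcon
      push Not at hcon
      exact hx (A x) (mem_Fam.2 ⟨hA2 x, hcon⟩) (hA1 x)
    · intro x _ y _ hxy
      rw [← hA2 x, ← hA2 y, hxy]
  calc _ ≤ ∑ Y ∈ powersetCard m (univ : Finset α), T0 := sum_le_sum h2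
    _ = _ := by rw [sum_const, card_powersetCard, card_univ, nsmul_eq_mul]

theorem sum_I_low (f : Finset α → β) (K a : ℕ) :
    (Fintype.card β : ℝ) * ((Fintype.card α).choose a : ℝ) - ((Fintype.card α).choose a : ℝ) * 2 ^ a ≤
      ∑ x, ((I (Fam f K x) a).card : ℝ) := by
  have h1 : ∑ x, ((I (Fam f K x) a).card : ℝ) =
      ∑ Y ∈ powersetCard a (univ : Finset α), ((univ.filter (fun x => Free (Fam f K x) Y)).card : ℝ) := by
    have : ∀ x, ((I (Fam f K x) a).card : ℝ) = ∑ Y ∈ powersetCard a (univ : Finset α), if Free (Fam f K x) Y then (1:ℝ) else 0 := by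
      intro x; unfold I; rw [card_filter]; push_cast; rfl
    simp_rw [this]
    rw [sum_comm]
    refine sum_congr rfl (fun Y _ => ?_)
    rw [card_filter]; push_cast; rfl
  rw [h1]
  have h2 : ∀ Y ∈ powersetCard a (univ : Finset α), (Fintype.card β : ℝ) - 2 ^ a ≤
      ((univ.filter (fun x => Free (Fam f K x) Y)).card : ℝ) := by
    intro Y hY
    rw [mem_powersetCard] at hY
    have h3 : (univ.filter (fun x => Free (Fam f K x) Y)).card + (univ.filter (fun x => ¬ Free (Fam f K x) Y)).card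
        = Fintype.card β := by
      rw [Finset.card_filter_add_card_filter_not, card_univ]
    have h4 : (univ.filter (fun x => ¬ Free (Fam f K x) Y)).card ≤ 2 ^ a := by
      have h5 : univ.filter (fun x => ¬ Free (Fam f K x) Y) ⊆ Y.powerset.image f := by
        intro x hx
        rw [mem_filter] at hx
        have := hx.2
        unfold Free at this
        push Not at this
        obtain ⟨A, hA, hAY⟩ := this
        exact mem_image.2 ⟨A, mem_powerset.2 hAY, (mem_Fam.1 hA).1⟩
      calc _ ≤ (Y.powerset.image f).card := card_le_card h5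
        _ ≤ Y.powerset.card := card_image_le
        _ = 2 ^ a := by rw [card_powerset, hY.2]
    have h3' : ((univ.filter (fun x => Free (Fam f K x) Y)).card : ℝ) + ((univ.filter (fun x => ¬ Free (Fam f K x) Y)).card : ℝ)
        = (Fintype.card β : ℝ) := by exact_mod_cast h3
    have h4' : ((univ.filter (fun x => ¬ Free (Fam f K x) Y)).card : ℝ) ≤ 2 ^ a := by exact_mod_cast h4
    linarith
  calc _ = ∑ Y ∈ powersetCard a (univ : Finset α), ((Fintype.card β : ℝ) - 2 ^ a) := by
        rw [sum_const, card_powersetCard, card_univ, nsmul_eq_mul]; ring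
    _ ≤ _ := sum_le_sum h2

theorem sum_B (f : Finset α → β) (K a : ℕ) (ha : a ≤ Fintype.card α) :
    ∑ x, (B (Fam f K x) a : ℝ) ≤ ((Fintype.card α).choose a : ℝ) * (((Fintype.card α : ℝ) - a) * 2 ^ a) := by
  have h1 : ∑ x, (B (Fam f K x) a : ℝ) ≤
      ∑ Z ∈ powersetCard a (univ : Finset α), ∑ y ∈ Zᶜ,
        ((univ.filter (fun x => Free (Fam f K x) Z ∧ ¬ Free (Fam f K x) (insert y Z))).card : ℝ) := by
    have : ∀ x, (B (Fam f K x) a : ℝ) = ∑ Z ∈ powersetCard a (univ : Finset α), ∑ y ∈ Zᶜ,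
        if (Free (Fam f K x) Z ∧ ¬ Free (Fam f K x) (insert y Z)) then (1:ℝ) else 0 := by
      intro x; unfold B I; push_cast
      rw [sum_filter]
      refine sum_congr rfl (fun Z _ => ?_)
      by_cases h : Free (Fam f K x) Z
      · simp only [h, if_true, true_and]
        unfold bad; rw [card_filter]; push_cast; rfl
      · simp [h]
    simp_rw [this]
    rw [sum_comm]
    refine le_of_eq (sum_congr rfl (fun Z _ => ?_))
    rw [sum_comm]
    refine sum_congr rfl (fun y _ => ?_)
    rw [card_filter]; push_cast; rfl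
  refine h1.trans ?_
  have h2 : ∀ Z ∈ powersetCard a (univ : Finset α), ∑ y ∈ Zᶜ,
        ((univ.filter (fun x => Free (Fam f K x) Z ∧ ¬ Free (Fam f K x) (insert y Z))).card : ℝ) ≤
        ((Fintype.card α : ℝ) - a) * 2 ^ a := by
    intro Z hZ
    rw [mem_powersetCard] at hZ
    have h3 : ∀ y ∈ Zᶜ, ((univ.filter (fun x => Free (Fam f K x) Z ∧ ¬ Free (Fam f K x) (insert y Z))).card : ℝ) ≤ 2 ^ a := by
      intro y hy
      have hyZ : y ∉ Z := by simpa using hy
      have h5 : univ.filter (fun x => Free (Fam f K x) Z ∧ ¬ Free (Fam f K x) (insert y Z)) ⊆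
          Z.powerset.image (fun A => f (insert y A)) := by
        intro x hx
        rw [mem_filter] at hx
        obtain ⟨_, hfree, hnf⟩ := hx
        unfold Free at hnf
        push Not at hnf
        obtain ⟨A, hA, hAY⟩ := hnf
        have hyA : y ∈ A := by
          by_contra hcon
          exact hfree A hA (fun z hz => by
            rcases mem_insert.1 (hAY hz) with h | h
            · exact absurd (h ▸ hz) hcon
            · exact h)
        refine mem_image.2 ⟨A.erase y, ?_, ?_⟩
        · rw [mem_powerset]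
          intro z hz
          rw [mem_erase] at hz
          rcases mem_insert.1 (hAY hz.2) with h | h
          · exact absurd h hz.1
          · exact h
        · rw [insert_erase hyA]; exact (mem_Fam.1 hA).1
      have h6 : (univ.filter (fun x => Free (Fam f K x) Z ∧ ¬ Free (Fam f K x) (insert y Z))).card ≤ 2 ^ a := by
        calc _ ≤ (Z.powerset.image (fun A => f (insert y A))).card := card_le_card h5
          _ ≤ Z.powerset.card := card_image_le
          _ = 2 ^ a := by rw [card_powerset, hZ.2]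
      exact_mod_cast h6
    calc _ ≤ ∑ y ∈ Zᶜ, (2:ℝ) ^ a := sum_le_sum h3
      _ = _ := by
        rw [sum_const, nsmul_eq_mul, card_compl, hZ.2, Nat.cast_sub ha]
  calc _ ≤ ∑ Z ∈ powersetCard a (univ : Finset α), ((Fintype.card α : ℝ) - a) * 2 ^ a := sum_le_sum h2
    _ = _ := by rw [sum_const, card_powersetCard, card_univ, nsmul_eq_mul]

/-- The finite inequality. -/
theorem main_ineq (f : Finset α → β) (K a l : ℕ) (g δ T0 : ℝ)
    (hf : ∀ Y : Finset α, Y.card = a + l + 1 → ∀ x, ∃ A, A ⊆ Y ∧ f A = x)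
    (hT : ∀ Y : Finset α, Y.card = a + l + 1 → (T K Y : ℝ) ≤ T0)
    (hg : 1 ≤ g) (hδ : 0 < δ) (hδ1 : δ < 1) (hn : a + (l + 1) < Fintype.card α)
    (hgK : ∀ j, a ≤ j → j + 1 < a + (l + 1) → (j : ℝ) + 1 ≤ g * ((j + 2 - K : ℕ) : ℝ)) :
    (Fintype.card β : ℝ) ≤ 2 ^ a + T0 / δ ^ (l + 1) +
      g ^ l * 2 ^ a * (((Fintype.card α : ℝ) - a) / ((Fintype.card α : ℝ) - (a + (l + 1)))) / (1 - δ) := by
  have hnR : (a : ℝ) + (l + 1) < (Fintype.card α : ℝ) := by exact_mod_cast hn
  have hpos1 : 0 < (1 - δ) * ((Fintype.card α : ℝ) - (a + (l + 1))) := by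
    apply mul_pos <;> linarith
  have hCa : (0 : ℝ) < ((Fintype.card α).choose a : ℝ) := by
    exact_mod_cast Nat.choose_pos (by omega)
  have hch : (0 : ℝ) < ((Fintype.card α).choose (a + l + 1) : ℝ) := by
    exact_mod_cast Nat.choose_pos (by omega)
  have hg0 : 0 < g := by linarith
  have h1 : ∑ x, ((I (Fam f K x) a).card : ℝ) ≤
      ((Fintype.card α).choose a : ℝ) / (δ ^ (l + 1) * ((Fintype.card α).choose (a + l + 1) : ℝ)) *
        ∑ x, ((I (Fam f K x) (a + l + 1)).card : ℝ) +
      g ^ l / ((1 - δ) * ((Fintype.card α : ℝ) - (a + (l + 1)))) * ∑ x, (B (Fam f K x) a : ℝ) := by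
    rw [mul_sum, mul_sum, ← sum_add_distrib]
    exact sum_le_sum (fun x _ => chain (Fam f K x) K a l (fun A hA => (mem_Fam.1 hA).2) g δ hg hδ hδ1 hn hgK)
  have h2 := sum_I_low f K a
  have h3 := sum_I_top f K (a + l + 1) hf T0 hT
  have h4 := sum_B f K a (by omega)
  have c1 : 0 ≤ ((Fintype.card α).choose a : ℝ) / (δ ^ (l + 1) * ((Fintype.card α).choose (a + l + 1) : ℝ)) := by
    positivity
  have c2 : 0 ≤ g ^ l / ((1 - δ) * ((Fintype.card α : ℝ) - (a + (l + 1)))) := by positivity
  have h5 := mul_le_mul_of_nonneg_left h3 c1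
  have h6 := mul_le_mul_of_nonneg_left h4 c2
  have e1 : ((Fintype.card α).choose a : ℝ) / (δ ^ (l + 1) * ((Fintype.card α).choose (a + l + 1) : ℝ)) *
      (((Fintype.card α).choose (a + l + 1) : ℝ) * T0) = ((Fintype.card α).choose a : ℝ) * (T0 / δ ^ (l + 1)) := by
    field_simp
  have e2 : g ^ l / ((1 - δ) * ((Fintype.card α : ℝ) - (a + (l + 1)))) *
      (((Fintype.card α).choose a : ℝ) * (((Fintype.card α : ℝ) - a) * 2 ^ a)) =
      ((Fintype.card α).choose a : ℝ) * (g ^ l * 2 ^ a *
        (((Fintype.card α : ℝ) - a) / ((Fintype.card α : ℝ) - (a + (l + 1)))) / (1 - δ)) := by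
    have hx : (1 - δ) ≠ 0 := by linarith
    have hy : ((Fintype.card α : ℝ) - (a + (l + 1))) ≠ 0 := by linarith
    field_simp
  rw [e1] at h5
  rw [e2] at h6
  have h7 : ((Fintype.card α).choose a : ℝ) * (Fintype.card β : ℝ) ≤
      ((Fintype.card α).choose a : ℝ) * (2 ^ a + T0 / δ ^ (l + 1) +
      g ^ l * 2 ^ a * (((Fintype.card α : ℝ) - a) / ((Fintype.card α : ℝ) - (a + (l + 1)))) / (1 - δ)) := by
    linarith
  exact le_of_mul_le_mul_left h7 hCa

end H365EH
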