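import Mathlib

set_option autoImplicit false

namespace H365EH.Up

open Finset

theorem exists_split {n : ℕ} (Y : Finset (Fin n)) (k : ℕ) (hk : k ≤ Y.card) :
    ∃ Y0, Y0 ⊆ Y ∧ Y0.card = k ∧ ∀ a ∈ Y0, ∀ b ∈ Y, b ∉ Y0 → a < b := by
  induction k with
  | zero => exact ⟨∅, by simp, by simp, by simp⟩
  | succ k ih =>
    obtain ⟨Y0, h1, h2, h3⟩ := ih (by omega)
    have hne : (Y \ Y0).Nonempty := by
      rw [← card_pos, card_sdiff_of_subset h1]; omega
    have hz : (Y \ Y0).min' hne ∈ Y \ Y0 := min'_mem _ _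
    rw [mem_sdiff] at hz
    refine ⟨insert ((Y \ Y0).min' hne) Y0, insert_subset hz.1 h1, by rw [card_insert_of_notMem hz.2, h2], ?_⟩
    intro a ha b hb hb'
    rw [mem_insert, not_or] at hb'
    rw [mem_insert] at ha
    rcases ha with rfl | ha
    · exact lt_of_le_of_ne (min'_le _ _ (mem_sdiff.2 ⟨hb, hb'.2⟩)) (Ne.symm hb'.1)
    · exact h3 a ha b hb hb'.2

/-- the first `l` elements of `A`. -/
def pre {n : ℕ} (l : ℕ) (A : Finset (Fin n)) : Finset (Fin n) :=
  A.filter (fun a => (A.filter (fun b => b < a)).card < l)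

theorem pre_union {n l : ℕ} (P R : Finset (Fin n)) (hP : P.card = l)
    (hlt : ∀ a ∈ P, ∀ b ∈ R, a < b) : pre l (P ∪ R) = P := by
  ext a
  simp only [pre, mem_filter, mem_union]
  constructor
  · rintro ⟨ha | ha, h⟩
    · exact ha
    · exfalso
      have : P.card ≤ ((P ∪ R).filter (fun b => b < a)).card := by
        apply card_le_card
        intro b hb
        rw [mem_filter, mem_union]
        exact ⟨Or.inl hb, hlt b hb a ha⟩
      omega
  · intro ha
    refine ⟨Or.inl ha, ?_⟩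
    have h1 : ((P ∪ R).filter (fun b => b < a)) ⊆ P.erase a := by
      intro b hb
      rw [mem_filter, mem_union] at hb
      rw [mem_erase]
      refine ⟨ne_of_lt hb.2, ?_⟩
      rcases hb.1 with h | h
      · exact h
      · exact absurd hb.2 (not_lt.2 (hlt a ha b h).le)
    have h2 := card_le_card h1
    rw [card_erase_of_mem ha] at h2
    have h3 : 0 < P.card := card_pos.2 ⟨a, ha⟩
    omega

section
variable {n : ℕ} {F : Type} [Field F] [Fintype F] [DecidableEq F]

/-- degenerate labellings of `Z`. -/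
def Bad (F : Type) [Field F] [Fintype F] [DecidableEq F] (Z : Finset (Fin n)) : Finset (Fin n → F × F) :=
  univ.filter (fun w => ∃ R ∈ Z.powerset, R.Nonempty ∧ ∑ a ∈ R, w a = 0)

theorem card_zero (R : Finset (Fin n)) (hR : R.Nonempty) :
    (univ.filter (fun w : Fin n → F × F => ∑ a ∈ R, w a = 0)).card * (Fintype.card F) ^ 2 ≤
      Fintype.card (Fin n → F × F) := by
  obtain ⟨a0, ha0⟩ := hR
  have key : ∀ (w : Fin n → F × F) (z : F × F), ∑ a ∈ R, w a = 0 →
      ∑ a ∈ R, Function.update w a0 (w a0 + z) a = z := by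
    intro w z hw
    rw [sum_update_of_mem ha0]
    have : w a0 + ∑ x ∈ R \ {a0}, w x = 0 := by
      rw [← hw, sdiff_singleton_eq_erase, add_sum_erase _ _ ha0]
    calc w a0 + z + ∑ x ∈ R \ {a0}, w x = (w a0 + ∑ x ∈ R \ {a0}, w x) + z := by ring
      _ = z := by rw [this, zero_add]
  have : ((univ.filter (fun w : Fin n → F × F => ∑ a ∈ R, w a = 0)) ×ˢ (univ : Finset (F × F))).card ≤
      (univ : Finset (Fin n → F × F)).card := by
    apply card_le_card_of_injOn (fun p => Function.update p.1 a0 (p.1 a0 + p.2))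
    · intro _ _; simp
    · rintro ⟨w, z⟩ h ⟨w', z'⟩ h' heq
      simp only [coe_product, coe_filter, mem_univ, true_and, coe_univ, Set.mem_prod, Set.mem_setOf_eq,
        Set.mem_univ, and_true] at h h'
      simp only at heq
      have hz : z = z' := by
        rw [← key w z h, ← key w' z' h', heq]
      subst hz
      have hw : w = w' := by
        funext b
        by_cases hb : b = a0
        · subst hb
          have := congrFun heq b
          simp only [Function.update_self] at this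
          exact add_right_cancel this
        · have := congrFun heq b
          simpa [Function.update_of_ne hb] using this
      rw [hw]
  rw [card_product, card_univ, card_univ, Fintype.card_prod] at this
  calc _ = (univ.filter (fun w : Fin n → F × F => ∑ a ∈ R, w a = 0)).card * (Fintype.card F * Fintype.card F) := by
        rw [sq]
    _ ≤ _ := this

theorem card_Bad (Z : Finset (Fin n)) :
    (Bad F Z).card * (Fintype.card F) ^ 2 ≤ 2 ^ Z.card * Fintype.card (Fin n → F × F) := by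
  have h1 : Bad F Z ⊆ (Z.powerset.filter (fun R => R.Nonempty)).biUnion
      (fun R => univ.filter (fun w : Fin n → F × F => ∑ a ∈ R, w a = 0)) := by
    intro w hw
    rw [Bad, mem_filter] at hw
    obtain ⟨-, R, hR, hne, hs⟩ := hw
    rw [mem_biUnion]
    exact ⟨R, mem_filter.2 ⟨hR, hne⟩, mem_filter.2 ⟨mem_univ _, hs⟩⟩
  calc (Bad F Z).card * (Fintype.card F) ^ 2
      ≤ (∑ R ∈ Z.powerset.filter (fun R => R.Nonempty),
          (univ.filter (fun w : Fin n → F × F => ∑ a ∈ R, w a = 0)).card) * (Fintype.card F) ^ 2 :=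
        Nat.mul_le_mul_right _ ((card_le_card h1).trans card_biUnion_le)
    _ = ∑ R ∈ Z.powerset.filter (fun R => R.Nonempty),
          (univ.filter (fun w : Fin n → F × F => ∑ a ∈ R, w a = 0)).card * (Fintype.card F) ^ 2 := sum_mul _ _ _
    _ ≤ ∑ R ∈ Z.powerset.filter (fun R => R.Nonempty), Fintype.card (Fin n → F × F) :=
        sum_le_sum (fun R hR => card_zero R (mem_filter.1 hR).2)
    _ = (Z.powerset.filter (fun R => R.Nonempty)).card * Fintype.card (Fin n → F × F) := by
        rw [sum_const, smul_eq_mul]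
    _ ≤ _ := by
        refine Nat.mul_le_mul_right _ ?_
        rw [← card_powerset]
        exact card_filter_le _ _

/-- all prefixes are degenerate. -/
def BadAll (F : Type) [Field F] [Fintype F] [DecidableEq F] (l : ℕ) (Y0 Z : Finset (Fin n)) :
    Finset (Finset (Fin n) → (Fin n → F × F)) :=
  univ.filter (fun v => ∀ P ∈ powersetCard l Y0, v P ∈ Bad F Z)

theorem card_BadAll (l c : ℕ) (Y0 Z : Finset (Fin n))
    (hc : (Bad F Z).card * c ≤ Fintype.card (Fin n → F × F)) :
    (BadAll F l Y0 Z).card * c ^ (Y0.card.choose l) ≤ Fintype.card (Finset (Fin n) → (Fin n → F × F)) := by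
  classical
  have h1 : BadAll F l Y0 Z = Fintype.piFinset (fun P : Finset (Fin n) =>
      if P ∈ powersetCard l Y0 then Bad F Z else univ) := by
    ext v
    simp only [BadAll, mem_filter, mem_univ, true_and, Fintype.mem_piFinset]
    constructor
    · intro h P
      split_ifs with hP
      · exact h P hP
      · exact mem_univ _
    · intro h P hP
      have := h P
      rwa [if_pos hP] at this
  have h2 : c ^ (Y0.card.choose l) = ∏ P : Finset (Fin n), (if P ∈ powersetCard l Y0 then c else 1) := by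
    rw [prod_ite_mem, univ_inter, prod_const, card_powersetCard]
  rw [h1, Fintype.card_piFinset, h2, ← prod_mul_distrib, Fintype.card_pi]
  refine prod_le_prod' (fun P _ => ?_)
  split_ifs with hP
  · exact hc
  · rw [mul_one, card_univ]

theorem exists_labels (t l : ℕ) (ht : 1 ≤ t) (hF : Fintype.card F = 2 ^ t) (hn : n ≤ 2 ^ t)
    (h : t * (2 * l + (t + 1)) < (t - 1) * (2 * l).choose l) :
    ∃ v : Finset (Fin n) → (Fin n → F × F), ∀ Y0 Z : Finset (Fin n), Y0.card = 2 * l → Z.card = t + 1 →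
      ∃ P ∈ powersetCard l Y0, v P ∉ Bad F Z := by
  classical
  by_contra hcon
  push Not at hcon
  set S : Finset (Finset (Fin n) × Finset (Fin n)) := powersetCard (2 * l) univ ×ˢ powersetCard (t + 1) univ with hS
  have h1 : (univ : Finset (Finset (Fin n) → (Fin n → F × F))) ⊆ S.biUnion (fun p => BadAll F l p.1 p.2) := by
    intro v _
    obtain ⟨Y0, Z, hY0, hZ, hv⟩ := hcon v
    rw [mem_biUnion]
    refine ⟨(Y0, Z), ?_, ?_⟩
    · rw [hS, mem_product, mem_powersetCard, mem_powersetCard]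
      exact ⟨⟨subset_univ _, hY0⟩, subset_univ _, hZ⟩
    · exact mem_filter.2 ⟨mem_univ _, hv⟩
  set V := Fintype.card (Finset (Fin n) → (Fin n → F × F)) with hV
  have hVpos : 0 < V := Fintype.card_pos
  have h2 : ∀ p ∈ S, (BadAll F l p.1 p.2).card * (2 ^ (t - 1)) ^ ((2 * l).choose l) ≤ V := by
    rintro ⟨Y0, Z⟩ hp
    rw [hS, mem_product, mem_powersetCard, mem_powersetCard] at hp
    have h3 := card_BadAll (F := F) l (2 ^ (t - 1)) Y0 Z (by
      have h4 := card_Bad (F := F) Z
      rw [hF, hp.2.2] at h4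
      have h5 : (2 ^ t) ^ 2 = 2 ^ (t - 1) * 2 ^ (t + 1) := by
        rw [← pow_mul, ← pow_add]; congr 1; omega
      rw [h5, ← mul_assoc, mul_comm (2 ^ (t + 1))] at h4
      exact Nat.le_of_mul_le_mul_right h4 (by positivity))
    rw [hp.1.2] at h3
    exact h3
  have h3 : S.card ≤ 2 ^ (t * (2 * l + (t + 1))) := by
    rw [hS, card_product, card_powersetCard, card_powersetCard, card_univ, Fintype.card_fin]
    calc n.choose (2 * l) * n.choose (t + 1) ≤ n ^ (2 * l) * n ^ (t + 1) :=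
          Nat.mul_le_mul (Nat.choose_le_pow _ _) (Nat.choose_le_pow _ _)
      _ = n ^ (2 * l + (t + 1)) := (pow_add _ _ _).symm
      _ ≤ (2 ^ t) ^ (2 * l + (t + 1)) := Nat.pow_le_pow_left hn _
      _ = _ := (pow_mul _ _ _).symm
  have h4 : V * (2 ^ (t - 1)) ^ ((2 * l).choose l) ≤ S.card * V := by
    calc V * (2 ^ (t - 1)) ^ ((2 * l).choose l)
        ≤ (∑ p ∈ S, (BadAll F l p.1 p.2).card) * (2 ^ (t - 1)) ^ ((2 * l).choose l) := by
          refine Nat.mul_le_mul_right _ ?_
          have := (card_le_card h1).trans card_biUnion_le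
          rwa [card_univ] at this
      _ = ∑ p ∈ S, (BadAll F l p.1 p.2).card * (2 ^ (t - 1)) ^ ((2 * l).choose l) := sum_mul _ _ _
      _ ≤ ∑ p ∈ S, V := sum_le_sum h2
      _ = _ := by rw [sum_const, smul_eq_mul]
  have h5 : (2 ^ (t - 1)) ^ ((2 * l).choose l) ≤ S.card := by
    rw [mul_comm] at h4
    exact Nat.le_of_mul_le_mul_right h4 hVpos
  rw [← pow_mul] at h5
  have h6 := (Nat.pow_le_pow_iff_right (by norm_num : 1 < 2)).1 (h5.trans h3)
  omega

theorem sum_symmDiff [CharP F 2] (w : Fin n → F × F) (R R' : Finset (Fin n)) :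
    ∑ a ∈ symmDiff R R', w a = ∑ a ∈ R, w a + ∑ a ∈ R', w a := by
  have h0 : ∀ z : F × F, z + z = 0 := by
    intro z
    ext
    · exact CharTwo.add_self_eq_zero z.1
    · exact CharTwo.add_self_eq_zero z.2
  have h1 : symmDiff R R' = (R \ R') ∪ (R' \ R) := rfl
  rw [h1, sum_union (disjoint_sdiff_sdiff)]
  have h2 : ∑ a ∈ R, w a = ∑ a ∈ R \ R', w a + ∑ a ∈ R ∩ R', w a := by
    rw [← sum_union (disjoint_sdiff_inter R R'), sdiff_union_inter]
  have h3 : ∑ a ∈ R', w a = ∑ a ∈ R' \ R, w a + ∑ a ∈ R ∩ R', w a := by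
    rw [inter_comm, ← sum_union (disjoint_sdiff_inter R' R), sdiff_union_inter]
  rw [h2, h3]
  have h4 := h0 (∑ a ∈ R ∩ R', w a)
  calc ∑ a ∈ R \ R', w a + ∑ a ∈ R' \ R, w a
      = ∑ a ∈ R \ R', w a + ∑ a ∈ R' \ R, w a + (∑ a ∈ R ∩ R', w a + ∑ a ∈ R ∩ R', w a) := by rw [h4, add_zero]
    _ = _ := by abel

theorem cover [CharP F 2] (t : ℕ) (hF : Fintype.card F = 2 ^ t) (w : Fin n → F × F) (Z : Finset (Fin n))
    (hZ : Z.card = t + 1) (hw : w ∉ Bad F Z) (c : F) :
    ∃ R, R ⊆ Z ∧ (∑ a ∈ R, w a).2 / (∑ a ∈ R, w a).1 = c := by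
  have h1 : (univ : Finset F).card < Z.powerset.card := by
    rw [card_univ, hF, card_powerset, hZ, pow_succ]
    have : 0 < 2 ^ t := by positivity
    omega
  obtain ⟨R, hR, R', hR', hne, heq⟩ := exists_ne_map_eq_of_card_lt_of_maps_to h1
    (f := fun R => (∑ a ∈ R, w a).2 - c * (∑ a ∈ R, w a).1) (fun _ _ => mem_univ _)
  rw [mem_powerset] at hR hR'
  have hsub : symmDiff R R' ⊆ Z := by
    intro a ha
    rw [mem_symmDiff] at ha
    rcases ha with ha | ha
    · exact hR ha.1
    · exact hR' ha.1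
  have hnon : (symmDiff R R').Nonempty := by
    rw [nonempty_iff_ne_empty]
    intro h
    exact hne (symmDiff_eq_bot.1 h)
  refine ⟨symmDiff R R', hsub, ?_⟩
  have hs : ∑ a ∈ symmDiff R R', w a ≠ 0 := by
    intro h
    exact hw (mem_filter.2 ⟨mem_univ _, symmDiff R R', mem_powerset.2 hsub, hnon, h⟩)
  have h2 : (∑ a ∈ symmDiff R R', w a).2 = c * (∑ a ∈ symmDiff R R', w a).1 := by
    rw [sum_symmDiff, Prod.snd_add, Prod.fst_add]
    have h3 : ∀ z : F, z + z = 0 := CharTwo.add_self_eq_zero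
    have h4 : (∑ a ∈ R, w a).2 + (∑ a ∈ R', w a).2 - c * ((∑ a ∈ R, w a).1 + (∑ a ∈ R', w a).1) =
        ((∑ a ∈ R, w a).2 - c * (∑ a ∈ R, w a).1) + ((∑ a ∈ R', w a).2 - c * (∑ a ∈ R', w a).1) := by ring
    rw [← heq, h3] at h4
    exact sub_eq_zero.1 h4
  have h3 : (∑ a ∈ symmDiff R R', w a).1 ≠ 0 := by
    intro h
    apply hs
    rw [h, mul_zero] at h2
    exact Prod.ext h h2
  rw [h2]
  exact mul_div_cancel_right₀ c h3

end

theorem core (n t l : ℕ) (hn : 0 < n) (hnt : n ≤ 2 ^ t) (ht : 1 ≤ t)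
    (h : t * (2 * l + (t + 1)) < (t - 1) * (2 * l).choose l) :
    ∃ f : Finset (Fin n) → Fin n, ∀ Y : Finset (Fin n), 2 * l + (t + 1) ≤ Y.card →
      ∀ x : Fin n, ∃ A : Finset (Fin n), A ⊆ Y ∧ f A = x := by
  classical
  haveI : Fact (Nat.Prime 2) := ⟨Nat.prime_two⟩
  letI : Fintype (GaloisField 2 t) := Fintype.ofFinite _
  have hF : Fintype.card (GaloisField 2 t) = 2 ^ t := by
    rw [← Nat.card_eq_fintype_card]
    exact GaloisField.card 2 t (by omega)
  obtain ⟨v, hv⟩ := exists_labels (n := n) (F := GaloisField 2 t) t l ht hF hnt h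
  haveI : Nonempty (Fin n) := ⟨⟨0, hn⟩⟩
  obtain ⟨ρ, hρ⟩ : ∃ ρ : GaloisField 2 t → Fin n, Function.Surjective ρ := by
    have hcard : Fintype.card (Fin n) ≤ Fintype.card (GaloisField 2 t) := by
      rw [hF, Fintype.card_fin]; exact hnt
    obtain ⟨e⟩ := Function.Embedding.nonempty_of_card_le hcard
    exact ⟨Function.invFun e, Function.invFun_surjective e.injective⟩
  refine ⟨fun A => ρ ((∑ a ∈ A \ pre l A, v (pre l A) a).2 / (∑ a ∈ A \ pre l A, v (pre l A) a).1), ?_⟩
  intro Y hY x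
  obtain ⟨Y0, h1, h2, h3⟩ := exists_split Y (2 * l) (by omega)
  obtain ⟨Z, hZ1, hZ2⟩ := exists_subset_card_eq (s := Y \ Y0) (n := t + 1) (by
    rw [card_sdiff_of_subset h1]; omega)
  obtain ⟨P, hP, hgood⟩ := hv Y0 Z h2 hZ2
  rw [mem_powersetCard] at hP
  obtain ⟨c, rfl⟩ := hρ x
  obtain ⟨R, hR, hc⟩ := cover t hF (v P) Z hZ2 hgood c
  have hRY : ∀ b ∈ R, b ∈ Y ∧ b ∉ Y0 := fun b hb => mem_sdiff.1 (hZ1 (hR hb))
  have hlt : ∀ a ∈ P, ∀ b ∈ R, a < b := fun a ha b hb => h3 a (hP.1 ha) b (hRY b hb).1 (hRY b hb).2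
  refine ⟨P ∪ R, union_subset (hP.1.trans h1) (fun b hb => (hRY b hb).1), ?_⟩
  have hdisj : Disjoint P R := by
    rw [disjoint_left]
    intro a ha hb
    exact (hRY a hb).2 (hP.1 ha)
  have hpre := pre_union P R hP.2 hlt
  simp only [hpre]
  rw [union_sdiff_cancel_left hdisj, hc]

end H365EH.Up
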