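import Pool.Agent.H365EH.Up

set_option autoImplicit false

namespace H365EH.Up

theorem pow_ge_lin (k : ℕ) (hk : 6 ≤ k) : 2 * k + 6 ≤ 2 ^ (k - 1) := by
  obtain ⟨j, rfl⟩ := Nat.exists_eq_add_of_le hk
  have : 6 + j - 1 = j + 5 := by omega
  rw [this]
  clear this hk
  induction j with
  | zero => norm_num
  | succ j ih => rw [show j + 1 + 5 = (j + 5) + 1 by ring, pow_succ]; omega

theorem upper_nat (n : ℕ) (hn : 2 ^ 63 < n) :
    ∃ m, m ≤ Nat.clog 2 n + Nat.clog 2 (Nat.clog 2 n) + Nat.clog 2 (Nat.clog 2 (Nat.clog 2 n)) + 6 ∧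
    ∃ f : Finset (Fin n) → Fin n, ∀ Y : Finset (Fin n), m ≤ Y.card →
      ∀ x : Fin n, ∃ A : Finset (Fin n), A ⊆ Y ∧ f A = x := by
  set t := Nat.clog 2 n with ht
  set a := Nat.clog 2 t with ha
  set b := Nat.clog 2 a with hb
  set l := (a + b + 5) / 2 with hl
  have hnt : n ≤ 2 ^ t := Nat.le_pow_clog (by norm_num) n
  have hta : t ≤ 2 ^ a := Nat.le_pow_clog (by norm_num) t
  have hab : a ≤ 2 ^ b := Nat.le_pow_clog (by norm_num) a
  have ht64 : 64 ≤ t := by
    by_contra h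
    push Not at h
    have : 2 ^ t ≤ 2 ^ 63 := Nat.pow_le_pow_right (by norm_num) (by omega)
    omega
  have ha6 : 6 ≤ a := by
    by_contra h
    push Not at h
    have : 2 ^ a ≤ 2 ^ 5 := Nat.pow_le_pow_right (by norm_num) (by omega)
    omega
  have hba : b ≤ a := by
    rw [hb]
    exact Nat.clog_le_of_le_pow (Nat.lt_two_pow_self).le
  have hat : 2 ^ (a - 1) < t := by
    have := Nat.pow_pred_clog_lt_self (b := 2) (by norm_num) (x := t) (by omega)
    simpa [ha] using this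
  have h1 : 2 * a + 6 ≤ 2 ^ (a - 1) := pow_ge_lin a ha6
  have h2l : 2 * l ≤ a + b + 5 := by omega
  have h2l' : a + b + 4 ≤ 2 * l := by omega
  have hlt : 2 * l + 1 ≤ t := by omega
  refine ⟨2 * l + (t + 1), by omega, core n t l (by omega) hnt (by omega) ?_⟩
  have hl0 : 0 < l := by omega
  have hcb : 4 ^ l ≤ 2 * l * (2 * l).choose l := by
    have := Nat.four_pow_le_two_mul_self_mul_centralBinom l hl0
    rwa [Nat.centralBinom_eq_two_mul_choose] at this
  have h4 : 16 * (t * a) ≤ 4 ^ l := by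
    calc 16 * (t * a) ≤ 2 ^ 4 * (2 ^ a * 2 ^ b) := Nat.mul_le_mul (by norm_num) (Nat.mul_le_mul hta hab)
      _ = 2 ^ (a + b + 4) := by rw [← pow_add, ← pow_add]; congr 1; omega
      _ ≤ 2 ^ (2 * l) := Nat.pow_le_pow_right (by norm_num) h2l'
      _ = 4 ^ l := by rw [pow_mul]; norm_num
  have h5 : 4 * l * (2 * l + (t + 1)) < 4 ^ l := by
    have h6 : 4 * l ≤ 6 * a := by omega
    have h7 : 2 * l + (t + 1) ≤ 2 * t := by omega
    have h8 : 4 * l * (2 * l + (t + 1)) ≤ 6 * a * (2 * t) := Nat.mul_le_mul h6 h7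
    have h9 : 0 < t * a := by positivity
    nlinarith
  -- conclude
  have h10 : 4 * l * (2 * l + (t + 1)) < 2 * l * (2 * l).choose l := lt_of_lt_of_le h5 hcb
  have h11 : 2 * (2 * l + (t + 1)) < (2 * l).choose l := by
    have : 2 * l * (2 * (2 * l + (t + 1))) < 2 * l * (2 * l).choose l := by
      calc 2 * l * (2 * (2 * l + (t + 1))) = 4 * l * (2 * l + (t + 1)) := by ring
        _ < _ := h10
    exact lt_of_mul_lt_mul_left this (Nat.zero_le _)
  have h12 : t ≤ (t - 1) * 2 := by omega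
  calc t * (2 * l + (t + 1)) ≤ (t - 1) * 2 * (2 * l + (t + 1)) := Nat.mul_le_mul_right _ h12
    _ = (t - 1) * (2 * (2 * l + (t + 1))) := by ring
    _ < (t - 1) * (2 * l).choose l := Nat.mul_lt_mul_of_pos_left h11 (by omega)

theorem clog_le (k : ℕ) (hk : 1 ≤ k) : (Nat.clog 2 k : ℝ) ≤ Real.logb 2 k + 1 := by
  rw [← Real.natCeil_logb_natCast]
  exact (Nat.ceil_lt_add_one (Real.logb_nonneg (by norm_num) (by exact_mod_cast hk))).le

theorem upper_real (n : ℕ) (hn : 2 ^ 64 ≤ n) :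
    ((Nat.clog 2 n + Nat.clog 2 (Nat.clog 2 n) + Nat.clog 2 (Nat.clog 2 (Nat.clog 2 n)) + 6 : ℕ) : ℝ) ≤
      Real.logb 2 n + Real.logb 2 (Real.logb 2 n) + Real.logb 2 (Real.logb 2 (Real.logb 2 n)) + 11 := by
  set t := Nat.clog 2 n with ht
  set a := Nat.clog 2 t with ha
  set b := Nat.clog 2 a with hb
  have hn' : (2 : ℝ) ^ (64 : ℕ) ≤ n := by exact_mod_cast hn
  have hnpos : (0 : ℝ) < n := lt_of_lt_of_le (by positivity) hn'
  set L1 := Real.logb 2 n with hL1
  have hL1' : 64 ≤ L1 := by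
    rw [hL1, Real.le_logb_iff_rpow_le (by norm_num) hnpos]
    calc (2 : ℝ) ^ (64 : ℝ) = 2 ^ (64 : ℕ) := by rw [← Real.rpow_natCast]; norm_num
      _ ≤ n := hn'
  set L2 := Real.logb 2 L1 with hL2
  have hL2' : 6 ≤ L2 := by
    rw [hL2, Real.le_logb_iff_rpow_le (by norm_num) (by linarith)]
    calc (2 : ℝ) ^ (6 : ℝ) = 2 ^ (6 : ℕ) := by rw [← Real.rpow_natCast]; norm_num
      _ ≤ L1 := by norm_num; exact hL1'
  set L3 := Real.logb 2 L2 with hL3
  have ht1 : (t : ℝ) ≤ L1 + 1 := clog_le n (by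
    have : 1 ≤ 2 ^ 64 := Nat.one_le_two_pow
    omega)
  have htpos : 1 ≤ t := by
    by_contra h
    have h0 : t = 0 := by omega
    have := Nat.le_pow_clog (b := 2) (by norm_num) n
    rw [← ht, h0] at this
    have : 2 ≤ 2 ^ 64 := by norm_num
    omega
  have ht64 : 64 ≤ t := by
    have h1 : n ≤ 2 ^ t := Nat.le_pow_clog (by norm_num) n
    exact (Nat.pow_le_pow_iff_right (by norm_num : 1 < 2)).1 (hn.trans h1)
  have ha1 : (a : ℝ) ≤ L2 + 2 := by
    have h1 := clog_le t htpos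
    have h2 : Real.logb 2 t ≤ Real.logb 2 (2 * L1) :=
      Real.logb_le_logb_of_le (by norm_num) (by exact_mod_cast htpos) (by linarith)
    rw [Real.logb_mul (by norm_num) (by linarith), Real.logb_self_eq_one (by norm_num)] at h2
    rw [← ha] at h1
    linarith
  have hapos : 1 ≤ a := by
    by_contra h
    have h0 : a = 0 := by omega
    have := Nat.le_pow_clog (b := 2) (by norm_num) t
    rw [← ha, h0] at this
    omega
  have hb1 : (b : ℝ) ≤ L3 + 2 := by
    have h1 := clog_le a hapos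
    have h2 : Real.logb 2 a ≤ Real.logb 2 (2 * L2) :=
      Real.logb_le_logb_of_le (by norm_num) (by exact_mod_cast hapos) (by linarith)
    rw [Real.logb_mul (by norm_num) (by linarith), Real.logb_self_eq_one (by norm_num)] at h2
    rw [← hb] at h1
    linarith
  push_cast
  linarith

end H365EH.Up
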